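import Mathlib

set_option autoImplicit false

/-! A family of Pisot ratios `γ` below the golden ratio, `γ^n (γ² - γ - 1) + 1 = 0`, for which some
`⌊t γ^m⌋` are all even (helper943). -/

namespace Pool.Agent.Y943.Fl

open Finset Polynomial Filter Topology

/-- the shift operator on sequences -/
noncomputable def shift : Module.End ℂ (ℕ → ℂ) where
  toFun w := fun n => w (n + 1)
  map_add' _ _ := rfl
  map_smul' _ _ := rfl

theorem shift_pow_apply (k : ℕ) (w : ℕ → ℂ) (n : ℕ) : (shift ^ k) w n = w (n + k) := by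
  induction k generalizing w with
  | zero => simp
  | succ k ih =>
    rw [pow_succ, Module.End.mul_apply, ih]
    simp only [shift, LinearMap.coe_mk, AddHom.coe_mk]
    congr 1

theorem tendsto_of_contract {v : ℕ → ℂ} {r : ℂ} (hr : ‖r‖ < 1)
    (h : Tendsto (fun n => v (n + 1) - r * v n) atTop (𝓝 0)) : Tendsto v atTop (𝓝 0) := by
  set q := ‖r‖ with hq
  have hq0 : 0 ≤ q := norm_nonneg r
  rw [Metric.tendsto_atTop] at h ⊢
  intro ε hε
  obtain ⟨N, hN⟩ := h (ε / 2 * (1 - q)) (by have : 0 < 1 - q := by linarith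
                                            positivity)
  have h1 : ∀ m : ℕ, ‖v (N + m)‖ ≤ q ^ m * ‖v N‖ + ε / 2 := by
    intro m
    induction m with
    | zero => simp; positivity
    | succ m ih =>
      have h2 := hN (N + m) (by omega)
      rw [dist_zero_right] at h2
      have h3 : v (N + (m + 1)) = (v (N + m + 1) - r * v (N + m)) + r * v (N + m) := by
        rw [← add_assoc]; ring
      rw [h3]
      calc ‖(v (N + m + 1) - r * v (N + m)) + r * v (N + m)‖
          ≤ ‖v (N + m + 1) - r * v (N + m)‖ + ‖r * v (N + m)‖ := norm_add_le _ _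
        _ ≤ ε / 2 * (1 - q) + q * (q ^ m * ‖v N‖ + ε / 2) := by
            rw [norm_mul, ← hq]
            gcongr
        _ = q ^ (m + 1) * ‖v N‖ + ε / 2 := by ring
  have h4 : Tendsto (fun m : ℕ => q ^ m * ‖v N‖) atTop (𝓝 (0 * ‖v N‖)) :=
    (tendsto_pow_atTop_nhds_zero_of_lt_one hq0 hr).mul_const _
  rw [zero_mul] at h4
  obtain ⟨M, hM⟩ := (Metric.tendsto_atTop.1 h4) (ε / 2) (by positivity)
  refine ⟨N + M, fun n hn => ?_⟩
  rw [dist_zero_right]
  obtain ⟨m, rfl⟩ : ∃ m, n = N + m := ⟨n - N, by omega⟩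
  have h5 := hM m (by omega)
  rw [dist_zero_right, Real.norm_of_nonneg (by positivity)] at h5
  linarith [h1 m]

theorem tendsto_of_prod (s : Multiset ℂ) : (∀ r ∈ s, ‖r‖ < 1) → ∀ w : ℕ → ℂ,
    Tendsto (aeval shift ((s.map (fun r => X - C r)).prod) w) atTop (𝓝 0) →
      Tendsto w atTop (𝓝 0) := by
  induction s using Multiset.induction with
  | empty => intro _ w h; simpa using h
  | cons r s ih =>
    intro hs w h
    rw [Multiset.map_cons, Multiset.prod_cons, map_mul, Module.End.mul_apply] at h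
    refine ih (fun r' hr' => hs r' (Multiset.mem_cons_of_mem hr')) w ?_
    refine tendsto_of_contract (hs r (Multiset.mem_cons_self r s)) ?_
    refine h.congr (fun n => ?_)
    simp [shift]

/-- a monic polynomial with all its roots in the open unit disc kills only null sequences -/
theorem tendsto_of_roots {Q : ℂ[X]} (hQ : Q.Monic) (hr : ∀ z, Q.IsRoot z → ‖z‖ < 1) (w : ℕ → ℂ)
    (h : aeval shift Q w = 0) : Tendsto w atTop (𝓝 0) := by
  have hs : Q = (Q.roots.map (fun r => X - C r)).prod := by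
    have := (IsAlgClosed.splits Q).eq_prod_roots
    rw [hQ.leadingCoeff, C_1, one_mul] at this
    exact this
  refine tendsto_of_prod Q.roots (fun r hr' => hr r (isRoot_of_mem_roots hr')) w ?_
  rw [← hs, h]
  exact tendsto_const_nhds

/-- the polynomial `X^{n+1} - (1 + X + ... + X^{n-1})` -/
noncomputable def PP (R : Type) [CommRing R] (n : ℕ) : R[X] := X ^ (n + 1) - ∑ i ∈ range n, X ^ i

theorem PP_eval {R : Type} [CommRing R] (n : ℕ) (x : R) :
    (PP R n).eval x = x ^ (n + 1) - ∑ i ∈ range n, x ^ i := by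
  simp [PP, eval_finsetSum]

theorem PP_monic {R : Type} [CommRing R] [Nontrivial R] (n : ℕ) : (PP R n).Monic := by
  unfold PP
  apply Polynomial.Monic.sub_of_left (monic_X_pow _)
  rw [degree_X_pow]
  refine (degree_sum_le _ _).trans_lt ?_
  rw [Finset.sup_lt_iff (by exact_mod_cast WithBot.bot_lt_coe (n + 1))]
  intro i hi
  rw [degree_X_pow]
  rw [mem_range] at hi
  exact_mod_cast (by omega : i < n + 1)

theorem key_id {R : Type} [CommRing R] (n : ℕ) (x : R) :
    (x - 1) * (x ^ (n + 1) - ∑ i ∈ range n, x ^ i) = x ^ n * (x ^ 2 - x - 1) + 1 := by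
  have h := mul_geom_sum x n
  rw [mul_sub, h]
  ring

/-- monotonicity of `P` -/
theorem PP_pos {n : ℕ} {g r : ℝ} (hg : 0 < g) (hgr : g < r)
    (h : g ^ (n + 1) = ∑ i ∈ range n, g ^ i) : ∑ i ∈ range n, r ^ i < r ^ (n + 1) := by
  have hr : 0 < r := hg.trans hgr
  have hn : (range n).Nonempty := by
    rw [nonempty_range_iff]
    rintro rfl
    simp at h
    exact hg.ne' h
  have h1 : ∑ i ∈ range n, r ^ i * g ^ (n + 1) < ∑ i ∈ range n, r ^ (n + 1) * g ^ i := by
    apply sum_lt_sum_of_nonempty hn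
    intro i hi
    rw [mem_range] at hi
    obtain ⟨d, hd⟩ : ∃ d, n + 1 = i + (d + 1) := ⟨n - i, by omega⟩
    rw [hd, pow_add r, pow_add g]
    have : g ^ (d + 1) < r ^ (d + 1) := pow_lt_pow_left₀ hgr hg.le (by omega)
    have h2 : 0 < r ^ i * g ^ i := by positivity
    nlinarith
  rw [← sum_mul, ← mul_sum, ← h] at h1
  have h3 : 0 < g ^ (n + 1) := by positivity
  exact lt_of_mul_lt_mul_right h1 h3.le

theorem PP_neg {n : ℕ} {g r : ℝ} (hr : 0 < r) (hgr : r < g)
    (h : g ^ (n + 1) = ∑ i ∈ range n, g ^ i) : r ^ (n + 1) < ∑ i ∈ range n, r ^ i := by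
  by_contra hcon
  push Not at hcon
  rcases hcon.lt_or_eq with hlt | heq
  · have hg : 0 < g := hr.trans hgr
    have hn : (range n).Nonempty := by
      rw [nonempty_range_iff]
      rintro rfl
      simp at h
      exact hg.ne' h
    have h1 : ∑ i ∈ range n, r ^ (n + 1) * g ^ i ≤ ∑ i ∈ range n, r ^ i * g ^ (n + 1) := by
      apply sum_le_sum
      intro i hi
      rw [mem_range] at hi
      obtain ⟨d, hd⟩ : ∃ d, n + 1 = i + (d + 1) := ⟨n - i, by omega⟩
      rw [hd, pow_add r, pow_add g]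
      have : r ^ (d + 1) ≤ g ^ (d + 1) := pow_le_pow_left₀ hr.le hgr.le _
      have h2 : 0 < r ^ i * g ^ i := by positivity
      nlinarith
    rw [← sum_mul, ← mul_sum, ← h] at h1
    have h3 : 0 < g ^ (n + 1) := by positivity
    have h4 := le_of_mul_le_mul_right h1 h3
    linarith
  · have := PP_pos hr hgr heq.symm
    linarith

/-- All the roots of `P` other than `γ` and `-1` lie in the open unit disc. -/
theorem root_lt_one {n : ℕ} {g : ℝ} (hg1 : 1 < g)
    (h : g ^ (n + 1) = ∑ i ∈ range n, g ^ i) {z : ℂ}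
    (hz : z ^ (n + 1) = ∑ i ∈ range n, z ^ i) (hzg : z ≠ (g : ℂ)) (hzn : z ≠ -1) : ‖z‖ < 1 := by
  by_contra hcon
  push Not at hcon
  set r := ‖z‖ with hr
  have hr0 : 0 < r := by linarith
  -- r ≤ g
  have hrg : r ≤ g := by
    by_contra hlt
    push Not at hlt
    have h1 := PP_pos (by linarith) hlt h
    have h2 : ‖z ^ (n + 1)‖ ≤ ∑ i ∈ range n, r ^ i := by
      rw [hz]
      refine (norm_sum_le _ _).trans (le_of_eq ?_)
      apply sum_congr rfl
      intro i _
      rw [norm_pow]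
    rw [norm_pow, ← hr] at h2
    linarith
  have hPr : r ^ (n + 1) ≤ ∑ i ∈ range n, r ^ i := by
    rcases hrg.lt_or_eq with hl | hl
    · exact (PP_neg hr0 hl h).le
    · rw [hl]; exact h.le
  -- r^n (1 + r - r²) ≥ 1
  have hF : 1 ≤ r ^ n * (1 + r - r ^ 2) := by
    have h1 := key_id n r
    have h2 : (r - 1) * (r ^ (n + 1) - ∑ i ∈ range n, r ^ i) ≤ 0 :=
      mul_nonpos_of_nonneg_of_nonpos (by linarith) (by linarith)
    rw [h1] at h2
    linarith [show r ^ n * (1 + r - r ^ 2) = -(r ^ n * (r ^ 2 - r - 1)) by ring]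
  -- the equation for z
  have hzF : z ^ n * (z ^ 2 - z - 1) + 1 = 0 := by
    rw [← key_id n z, hz, sub_self, mul_zero]
  have hnorm : r ^ n * ‖z ^ 2 - z - 1‖ = 1 := by
    have h1 : z ^ n * (z ^ 2 - z - 1) = -1 := by linear_combination hzF
    have h2 : ‖z ^ n * (z ^ 2 - z - 1)‖ = 1 := by rw [h1]; simp
    rwa [norm_mul, norm_pow] at h2
  -- the norm
  have hxy : z.re ^ 2 + z.im ^ 2 = r ^ 2 := by
    rw [hr, ← Complex.normSq_eq_norm_sq, Complex.normSq_apply]; ring
  have hN : ‖z ^ 2 - z - 1‖ ^ 2 = (r ^ 2 - r - 1) ^ 2 +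
      (r - z.re) * (4 * (z.re + r) + 2 * (r ^ 2 - 1)) := by
    rw [← Complex.normSq_eq_norm_sq, Complex.normSq_apply]
    have e1 : (z ^ 2 - z - 1).re = z.re ^ 2 - z.im ^ 2 - z.re - 1 := by
      simp [pow_two]
    have e2 : (z ^ 2 - z - 1).im = 2 * z.re * z.im - z.im := by
      simp [pow_two]; ring
    rw [e1, e2]
    have e3 : z.im ^ 2 = r ^ 2 - z.re ^ 2 := by linarith
    have e4 : (z.re ^ 2 - z.im ^ 2 - z.re - 1) * (z.re ^ 2 - z.im ^ 2 - z.re - 1) +
      (2 * z.re * z.im - z.im) * (2 * z.re * z.im - z.im) =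
      (z.re ^ 2 - z.im ^ 2 - z.re - 1) ^ 2 + z.im ^ 2 * (2 * z.re - 1) ^ 2 := by ring
    rw [e4, e3]
    ring
  have hre1 : z.re ≤ r := by
    have := Complex.re_le_norm z
    rwa [← hr] at this
  have hre2 : -r ≤ z.re := by
    have := Complex.abs_re_le_norm z
    rw [abs_le, ← hr] at this
    exact this.1
  have hA : 1 ≤ (r ^ n) ^ 2 * (r ^ 2 - r - 1) ^ 2 := by
    have h1 : (r ^ n) ^ 2 * (r ^ 2 - r - 1) ^ 2 = (r ^ n * (1 + r - r ^ 2)) ^ 2 := by ring
    rw [h1]
    nlinarith
  have hB : (r ^ n) ^ 2 * ‖z ^ 2 - z - 1‖ ^ 2 = 1 := by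
    rw [← mul_pow, hnorm, one_pow]
  rw [hN, mul_add] at hB
  have hp : 0 < (r ^ n) ^ 2 := by positivity
  have hC : (r - z.re) * (4 * (z.re + r) + 2 * (r ^ 2 - 1)) ≤ 0 := by
    by_contra hh
    push Not at hh
    have := mul_pos hp hh
    linarith
  have hD : 0 ≤ r - z.re := by linarith
  have hE : 0 ≤ 4 * (z.re + r) + 2 * (r ^ 2 - 1) := by nlinarith
  have hG : (r - z.re) * (4 * (z.re + r) + 2 * (r ^ 2 - 1)) = 0 :=
    le_antisymm hC (mul_nonneg hD hE)
  rcases mul_eq_zero.1 hG with h0 | h0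
  · -- z = r
    have hre : z.re = r := by linarith
    have him : z.im = 0 := by
      rw [hre] at hxy
      have : z.im ^ 2 = 0 := by linarith
      exact pow_eq_zero_iff (two_ne_zero) |>.1 this
    have hzr : z = (r : ℂ) := Complex.ext (by simpa using hre) (by simpa using him)
    have hrr : r ^ (n + 1) = ∑ i ∈ range n, r ^ i := by
      have h1 := hz
      rw [hzr] at h1
      exact_mod_cast h1
    rcases hrg.lt_or_eq with hl | hl
    · have := PP_neg hr0 hl h
      linarith
    · exact hzg (by rw [hzr, hl])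
  · have h1 : r = 1 := by nlinarith
    have h2 : z.re = -1 := by rw [h1] at h0; linarith
    have him : z.im = 0 := by
      rw [h2, h1] at hxy
      have : z.im ^ 2 = 0 := by linarith
      exact pow_eq_zero_iff (two_ne_zero) |>.1 this
    exact hzn (Complex.ext (by simpa using h2) (by simpa using him))

end Pool.Agent.Y943.Fl
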