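import Mathlib
import Pool.Agent.Y943.Fl.No

set_option autoImplicit false

/-! Pisot ratios for which some `⌊t γ^m⌋` are all even (helper943). -/

namespace Pool.Agent.Y943.Fl

open Finset Polynomial Filter Topology

theorem aeval_shift_apply (Q : ℂ[X]) (w : ℕ → ℂ) (m : ℕ) :
    (aeval shift Q) w m = ∑ i ∈ range (Q.natDegree + 1), Q.coeff i * w (m + i) := by
  rw [aeval_eq_sum_range, LinearMap.sum_apply, Finset.sum_apply]
  apply sum_congr rfl
  intro i _
  rw [LinearMap.smul_apply, Pi.smul_apply, shift_pow_apply, smul_eq_mul]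

theorem aeval_shift_geom (Q : ℂ[X]) (g : ℂ) (m : ℕ) :
    (aeval shift Q) (fun n => g ^ n) m = Q.eval g * g ^ m := by
  rw [aeval_shift_apply, eval_eq_sum_range, sum_mul]
  apply sum_congr rfl
  intro i _
  rw [pow_add]; ring

theorem eval_pos_of_no_root {Q : ℝ[X]} (hQ : Q.Monic) {a : ℝ} (h : ∀ x ≥ a, Q.eval x ≠ 0) :
    ∀ x ≥ a, 0 < Q.eval x := by
  intro x hx
  by_contra hneg
  push Not at hneg
  have hneg' : Q.eval x < 0 := lt_of_le_of_ne hneg (h x hx)
  by_cases hd : Q.natDegree = 0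
  · have : Q = 1 := hQ.natDegree_eq_zero.1 hd
    rw [this] at hneg'
    simp at hneg'
    linarith
  · have ht : Tendsto (fun x => Q.eval x) atTop atTop := by
      apply Q.tendsto_atTop_of_leadingCoeff_nonneg
      · rw [← natDegree_pos_iff_degree_pos]; omega
      · rw [hQ.leadingCoeff]; norm_num
    obtain ⟨y, hy⟩ := (ht.eventually_ge_atTop 1).and (eventually_ge_atTop x) |>.exists
    have hiv := intermediate_value_Icc hy.2 (Q.continuous.continuousOn (s := Set.Icc x y))
    obtain ⟨c, hc, hc0⟩ := hiv ⟨hneg'.le, by linarith [hy.1]⟩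
    exact h c (hx.trans hc.1) hc0

/-- the integer solution of `P(shift) b = -k` with constant initial values `B` -/
noncomputable def bb (P : ℤ[X]) (B : ℤ) (k : ℕ → ℤ) : ℕ → ℤ
  | m => if h : m < P.natDegree then B else
      - k (m - P.natDegree) - ∑ i : Fin P.natDegree, P.coeff i * bb P B k (m - P.natDegree + i)
  decreasing_by
    have := i.2
    omega

theorem bb_lt (P : ℤ[X]) (B : ℤ) (k : ℕ → ℤ) {m : ℕ} (h : m < P.natDegree) : bb P B k m = B := by
  rw [bb]; simp [h]

theorem bb_add (P : ℤ[X]) (B : ℤ) (k : ℕ → ℤ) (m : ℕ) : bb P B k (m + P.natDegree) =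
    - k m - ∑ i ∈ range P.natDegree, P.coeff i * bb P B k (m + i) := by
  rw [bb, dif_neg (by omega), Finset.sum_range]
  congr 1
  · simp
  · apply sum_congr rfl
    intro i _
    congr 2
    omega

theorem eval_map_apply_ofReal (Q : ℝ[X]) (x : ℝ) :
    (Q.map Complex.ofRealHom).eval (x : ℂ) = ((Q.eval x : ℝ) : ℂ) := by
  have := eval_map_apply (p := Q) (f := Complex.ofRealHom) (x := x)
  exact this

theorem exists_limit {P : ℤ[X]} (hP : P.Monic) {g : ℝ} (hg : 1 < g)
    (hroot : aeval g P = 0) (hsimple : aeval g (derivative P) ≠ 0)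
    (hr : ∀ z : ℂ, aeval z P = 0 → z ≠ (g : ℂ) → ‖z‖ < 1) (f : ℕ → ℝ) (k : ℕ → ℤ)
    (hk : ∀ m, ∑ i ∈ range (P.natDegree + 1), (P.coeff i : ℝ) * f (m + i) = k m) :
    ∃ B : ℤ, ∃ c : ℝ, 0 < c ∧ Tendsto (fun m => ((bb P B k m : ℝ) + f m) - c * g ^ m)
      atTop (𝓝 0) := by
  classical
  set PR : ℝ[X] := P.map (Int.castRingHom ℝ) with hPR
  have hPRm : PR.Monic := hP.map _
  have hPRroot : PR.IsRoot g := by
    rw [IsRoot.def, hPR, eval_map]
    exact hroot
  obtain ⟨Q, hQ⟩ := dvd_iff_isRoot.2 hPRroot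
  have hQm : Q.Monic := (monic_X_sub_C g).of_mul_monic_left (hQ ▸ hPRm)
  have hQg : Q.eval g ≠ 0 := by
    have e1 : (derivative PR).eval g = Q.eval g := by
      rw [hQ]
      simp
    have e2 : (derivative PR).eval g = aeval g (derivative P) := by
      rw [hPR, derivative_map, eval_map]
      rfl
    rw [← e1, e2]
    exact hsimple
  set QC : ℂ[X] := Q.map Complex.ofRealHom with hQC
  have hQCm : QC.Monic := hQm.map _
  have hPC : P.map (Int.castRingHom ℂ) = (X - C (g : ℂ)) * QC := by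
    have e1 : P.map (Int.castRingHom ℂ) = PR.map Complex.ofRealHom := by
      rw [hPR, Polynomial.map_map]
      congr 1
    rw [e1, hQ, Polynomial.map_mul, hQC]
    simp
  have hQCg : QC.eval (g : ℂ) = ((Q.eval g : ℝ) : ℂ) := by
    rw [hQC]
    exact eval_map_apply_ofReal Q g
  have hQCr : ∀ z, QC.IsRoot z → ‖z‖ < 1 := by
    intro z hz
    refine hr z ?_ ?_
    · have e1 : aeval z P = (P.map (Int.castRingHom ℂ)).eval z := by
        rw [eval_map]; rfl
      rw [e1, hPC, eval_mul, hz.eq_zero, mul_zero]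
    · rintro rfl
      rw [IsRoot.def, hQCg] at hz
      exact hQg (by exact_mod_cast hz)
  have hnoroot : ∀ x ≥ (1 : ℝ), Q.eval x ≠ 0 := by
    intro x hx h0
    have h2 : QC.IsRoot (x : ℂ) := by
      rw [IsRoot.def, hQC]
      have := eval_map_apply_ofReal Q x
      rw [this, h0, Complex.ofReal_zero]
    have h3 := hQCr _ h2
    rw [Complex.norm_real, Real.norm_of_nonneg (by linarith)] at h3
    linarith
  have hpos := eval_pos_of_no_root hQm hnoroot
  have hQ1 : 0 < Q.eval 1 := hpos 1 le_rfl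
  have hQgp : 0 < Q.eval g := hpos g hg.le
  have hQnd : QC.natDegree = Q.natDegree := by
    rw [hQC]; exact hQm.natDegree_map _
  -- the initial value
  obtain ⟨B, hB⟩ := exists_int_gt (-(∑ i ∈ range (Q.natDegree + 1), Q.coeff i * f i) / Q.eval 1)
  have hz0p : 0 < Q.eval 1 * B + ∑ i ∈ range (Q.natDegree + 1), Q.coeff i * f i := by
    rw [div_lt_iff₀ hQ1] at hB
    linarith
  set yc : ℕ → ℂ := fun m => (((bb P B k m : ℝ) + f m : ℝ) : ℂ) with hyc
  set d := P.natDegree with hd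
  have hPCd : (P.map (Int.castRingHom ℂ)).natDegree = d := hP.natDegree_map _
  have hd1 : d = QC.natDegree + 1 := by
    rw [← hPCd, hPC, (monic_X_sub_C _).natDegree_mul hQCm, natDegree_X_sub_C]
    ring
  have hkill : (aeval shift (P.map (Int.castRingHom ℂ))) yc = 0 := by
    funext m
    rw [aeval_shift_apply, hPCd, sum_range_succ, Pi.zero_apply]
    have e0 : (P.map (Int.castRingHom ℂ)).coeff d = 1 := by
      rw [coeff_map, hP.coeff_natDegree]; simp
    have e1 : yc (m + d) = - ((k m : ℤ) : ℂ) - ∑ i ∈ range d, ((P.coeff i : ℤ) : ℂ) *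
        ((bb P B k (m + i) : ℤ) : ℂ) + f (m + d) := by
      simp only [hyc]
      rw [hd, bb_add]
      push_cast
      ring
    have e2 : ∑ i ∈ range d, (P.map (Int.castRingHom ℂ)).coeff i * yc (m + i) =
        ∑ i ∈ range d, ((P.coeff i : ℤ) : ℂ) * ((bb P B k (m + i) : ℤ) : ℂ) +
          ∑ i ∈ range d, ((P.coeff i : ℤ) : ℂ) * (f (m + i) : ℂ) := by
      rw [← sum_add_distrib]
      apply sum_congr rfl
      intro i _
      rw [coeff_map]
      simp only [hyc, Int.coe_castRingHom]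
      push_cast
      ring
    have e3 : ∑ i ∈ range d, ((P.coeff i : ℤ) : ℂ) * (f (m + i) : ℂ) + f (m + d) =
        ((k m : ℤ) : ℂ) := by
      have h2 := hk m
      rw [sum_range_succ, hP.coeff_natDegree] at h2
      have h3 := congrArg (fun x : ℝ => (x : ℂ)) h2
      push_cast at h3
      rw [one_mul] at h3
      exact h3
    rw [e0, e1, e2, ← e3]
    ring
  set z : ℕ → ℂ := (aeval shift QC) yc with hz
  have hz1 : ∀ m, z (m + 1) = g * z m := by
    intro m
    have h2 := congrFun hkill m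
    rw [hPC, map_mul, Module.End.mul_apply, ← hz] at h2
    simp [shift] at h2
    linear_combination h2
  have hzm : ∀ m, z m = z 0 * (g : ℂ) ^ m := by
    intro m
    induction m with
    | zero => simp
    | succ m ih => rw [hz1, ih]; ring
  have hz0 : z 0 = ((Q.eval 1 * B + ∑ i ∈ range (Q.natDegree + 1), Q.coeff i * f i : ℝ) : ℂ) := by
    rw [hz, aeval_shift_apply, eval_eq_sum_range, hQnd]
    push_cast
    rw [sum_mul, ← sum_add_distrib]
    apply sum_congr rfl
    intro i hi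
    rw [mem_range] at hi
    have : bb P B k (0 + i) = B := bb_lt P B k (by omega)
    simp only [hyc]
    rw [this, hQC, coeff_map]
    simp only [Complex.ofRealHom_eq_coe]
    push_cast
    simp
    ring
  set D : ℝ := Q.eval 1 * B + ∑ i ∈ range (Q.natDegree + 1), Q.coeff i * f i with hD
  set c : ℝ := D / Q.eval g with hc
  have hc0 : 0 < c := by positivity
  refine ⟨B, c, hc0, ?_⟩
  set w : ℕ → ℂ := yc - (c : ℂ) • (fun n => (g : ℂ) ^ n) with hw
  have hwk : (aeval shift QC) w = 0 := by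
    rw [hw, map_sub, LinearMap.map_smul, ← hz]
    funext m
    rw [Pi.sub_apply, Pi.smul_apply, aeval_shift_geom, hzm, hz0, hQCg, Pi.zero_apply, hc]
    have : ((Q.eval g : ℝ) : ℂ) ≠ 0 := by exact_mod_cast hQgp.ne'
    rw [smul_eq_mul]
    push_cast
    field_simp
    ring
  have hw0 := tendsto_of_roots hQCm hQCr w hwk
  have hre := (Complex.continuous_re.tendsto 0).comp hw0
  rw [Complex.zero_re] at hre
  refine hre.congr (fun m => ?_)
  have e : w m = (((bb P B k m : ℝ) + f m - c * g ^ m : ℝ) : ℂ) := by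
    rw [hw]
    simp only [hyc, Pi.sub_apply, Pi.smul_apply, smul_eq_mul]
    push_cast
    ring
  rw [Function.comp_apply, e, Complex.ofReal_re]

/-- Pisot ratios `g` with an admissible pattern `f` in `(0, 1/2)`: some sequence
`⌊t g^m⌋` consists of even numbers only. -/
theorem exists_even_pattern {P : ℤ[X]} (hP : P.Monic) {g : ℝ} (hg : 1 < g)
    (hroot : aeval g P = 0) (hsimple : aeval g (derivative P) ≠ 0)
    (hr : ∀ z : ℂ, aeval z P = 0 → z ≠ (g : ℂ) → ‖z‖ < 1) (f : ℕ → ℝ) {δ : ℝ} (hδ : 0 < δ)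
    (hf1 : ∀ m, δ ≤ f m) (hf2 : ∀ m, f m ≤ 1 / 2 - δ)
    (hk : ∀ m, ∃ k : ℤ, ∑ i ∈ range (P.natDegree + 1), (P.coeff i : ℝ) * f (m + i) = k) :
    ∃ t : ℝ, 0 < t ∧ ∀ m : ℕ, Even ⌊t * g ^ m⌋₊ := by
  choose k hk using hk
  obtain ⟨B, c, hc, hlim⟩ := exists_limit hP hg hroot hsimple hr f k hk
  obtain ⟨M, hM⟩ := (Metric.tendsto_atTop.1 hlim) δ hδ
  refine ⟨2 * c * g ^ M, by positivity, fun m => ?_⟩
  have h2 := hM (M + m) (by omega)
  rw [dist_zero_right, Real.norm_eq_abs, abs_lt] at h2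
  have e : 2 * c * g ^ M * g ^ m = 2 * (c * g ^ (M + m)) := by rw [pow_add]; ring
  rw [e]
  have hpos : 0 < c * g ^ (M + m) := by positivity
  have h5 := hf1 (M + m)
  have h6 := hf2 (M + m)
  have hb : (0 : ℤ) ≤ bb P B k (M + m) := by
    by_contra hneg
    push Not at hneg
    have h3 : bb P B k (M + m) ≤ -1 := by omega
    have h4 : ((bb P B k (M + m) : ℤ) : ℝ) ≤ -1 := by exact_mod_cast h3
    linarith [h2.1]
  obtain ⟨a, ha⟩ := Int.eq_ofNat_of_zero_le hb
  have hkr : ((bb P B k (M + m) : ℤ) : ℝ) = a := by rw [ha]; simp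
  have hfl : ⌊2 * (c * g ^ (M + m))⌋₊ = 2 * a := by
    rw [Nat.floor_eq_iff (by positivity)]
    push_cast
    rw [hkr] at h2
    constructor
    · linarith [h2.2]
    · linarith [h2.1]
  rw [hfl]
  exact even_two_mul a

/-- Pisot ratios `g` whose minimal polynomial takes a value `≤ -3` at `1`. -/
theorem exists_even {P : ℤ[X]} (hP : P.Monic) (h1 : P.eval 1 ≤ -3) {g : ℝ} (hg : 1 < g)
    (hroot : aeval g P = 0) (hsimple : aeval g (derivative P) ≠ 0)
    (hr : ∀ z : ℂ, aeval z P = 0 → z ≠ (g : ℂ) → ‖z‖ < 1) :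
    ∃ t : ℝ, 0 < t ∧ ∀ m : ℕ, Even ⌊t * g ^ m⌋₊ := by
  have hP1 : ((P.eval 1 : ℤ) : ℝ) ≤ -3 := by exact_mod_cast h1
  set f : ℝ := (-1 / (P.eval 1 : ℤ) : ℝ) with hf
  have hf0 : 0 < f := by
    rw [hf]
    apply div_pos_of_neg_of_neg <;> linarith
  have hfP : f * ((P.eval 1 : ℤ) : ℝ) = -1 := by
    rw [hf]
    exact div_mul_cancel₀ _ (by intro h0; linarith)
  have hf3 : 3 * f ≤ 1 := by nlinarith
  refine exists_even_pattern hP hg hroot hsimple hr (fun _ => f) (δ := min f (1 / 6))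
    (by positivity) (fun _ => min_le_left _ _) (fun _ => by
      have := min_le_right f (1 / 6)
      linarith) (fun m => ⟨-1, ?_⟩)
  rw [← sum_mul]
  have e : (∑ i ∈ range (P.natDegree + 1), (P.coeff i : ℝ)) = ((P.eval 1 : ℤ) : ℝ) := by
    rw [eval_eq_sum_range]
    push_cast
    simp
  rw [e, mul_comm, hfP]
  push_cast
  ring

end Pool.Agent.Y943.Fl
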