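import Mathlib
import Pool.Agent.Y943.Fl.No2

set_option autoImplicit false

/-! The Pisot ratios `γ^n (1 + γ - γ²) = 1`, `n ≥ 4` (helper943). -/

namespace Pool.Agent.Y943.Fl

open Finset Polynomial Filter Topology

theorem geom_of_F {n : ℕ} {g : ℝ} (hg : 1 < g) (h : g ^ n * (1 + g - g ^ 2) = 1) :
    g ^ (n + 1) = ∑ i ∈ range n, g ^ i := by
  have h1 := key_id n g
  have h2 : g ^ n * (g ^ 2 - g - 1) + 1 = 0 := by linear_combination -h
  rw [h2] at h1
  rcases mul_eq_zero.1 h1 with h3 | h3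
  · linarith
  · linarith

/-- the derivative of `x^n (x²-x-1) + 1` at the root is positive -/
theorem F_deriv_pos {n : ℕ} {g : ℝ} (hg : 1 < g) (h : g ^ n * (1 + g - g ^ 2) = 1) :
    0 < n * (g ^ 2 - g - 1) + g * (2 * g - 1) := by
  have hp : 0 < g ^ n := by positivity
  have h1 : 0 < 1 + g - g ^ 2 := by
    by_contra hh
    push Not at hh
    have := mul_nonpos_of_nonneg_of_nonpos hp.le hh
    linarith
  have hb := one_add_mul_sub_le_pow (show (-1 : ℝ) ≤ g by linarith) n
  -- n (g-1) ≤ g^n - 1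
  have h2 : (n * (g - 1)) * (1 + g - g ^ 2) ≤ (g ^ n - 1) * (1 + g - g ^ 2) := by
    apply mul_le_mul_of_nonneg_right _ h1.le
    linarith
  have h3 : (g ^ n - 1) * (1 + g - g ^ 2) = g * (g - 1) := by
    rw [sub_mul, h]; ring
  rw [h3] at h2
  have h4 : n * (1 + g - g ^ 2) ≤ g := by
    have h5 : (n * (1 + g - g ^ 2)) * (g - 1) ≤ g * (g - 1) := by linarith
    exact le_of_mul_le_mul_right h5 (by linarith)
  nlinarith

/-- the polynomial `X^n (X² - X - 1) + 1` -/
noncomputable def FF (n : ℕ) : ℤ[X] := X ^ n * (X ^ 2 - X - 1) + 1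

theorem FF_deriv {n : ℕ} {g : ℝ} (hg : 1 < g) (h : g ^ n * (1 + g - g ^ 2) = 1) :
    aeval g (derivative (FF n)) ≠ 0 := by
  have h1 := F_deriv_pos hg h
  rcases Nat.eq_zero_or_pos n with rfl | hn
  · simp [FF, map_ofNat]
    simp at h1
    nlinarith
  · obtain ⟨m, rfl⟩ : ∃ m, n = m + 1 := ⟨n - 1, by omega⟩
    have h2 : aeval g (derivative (FF (m + 1))) =
      g ^ m * (((m + 1 : ℕ) : ℝ) * (g ^ 2 - g - 1) + g * (2 * g - 1)) := by
      simp [FF, map_ofNat]
      ring
    rw [h2]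
    positivity

theorem FF_aeval {n : ℕ} {g : ℝ} (h : g ^ n * (1 + g - g ^ 2) = 1) : aeval g (FF n) = 0 := by
  simp [FF]
  linarith [show g ^ n * (g ^ 2 - g - 1) = -(g ^ n * (1 + g - g ^ 2)) by ring]

theorem root_of_F {n : ℕ} {z : ℂ} (hz : aeval z (FF n) = 0) (h1 : z ≠ 1) :
    z ^ (n + 1) = ∑ i ∈ range n, z ^ i := by
  have h2 := key_id n z
  have h3 : z ^ n * (z ^ 2 - z - 1) + 1 = 0 := by simpa [FF] using hz
  rw [h3] at h2
  rcases mul_eq_zero.1 h2 with h4 | h4
  · exact absurd (sub_eq_zero.1 h4) h1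
  · exact sub_eq_zero.1 h4

/-- the even case -/
theorem PP_mul (n : ℕ) : (X - 1) * PP ℤ n = FF n := by
  have := key_id n (X : ℤ[X])
  rw [PP, this, FF]

/-- the odd cofactor -/
noncomputable def P2 (k : ℕ) : ℤ[X] := X ^ (2 * k + 1) - ∑ i ∈ range (k + 1), X ^ (2 * i)

theorem P2_mul (k : ℕ) : (X ^ 2 - 1) * P2 k = FF (2 * k + 1) := by
  have h : (X ^ 2 - 1) * ∑ i ∈ range (k + 1), (X : ℤ[X]) ^ (2 * i) = X ^ (2 * k + 2) - 1 := by
    have := mul_geom_sum ((X : ℤ[X]) ^ 2) (k + 1)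
    simp only [← pow_mul] at this
    rw [this]
    ring
  rw [P2, mul_sub, h, FF]
  ring

theorem P2_monic (k : ℕ) : (P2 k).Monic := by
  unfold P2
  apply Polynomial.Monic.sub_of_left (monic_X_pow _)
  rw [degree_X_pow]
  refine (degree_sum_le _ _).trans_lt ?_
  rw [Finset.sup_lt_iff (by exact_mod_cast WithBot.bot_lt_coe (2 * k + 1))]
  intro i hi
  rw [degree_X_pow]
  rw [mem_range] at hi
  exact_mod_cast (by omega : 2 * i < 2 * k + 1)

theorem sum_pattern (P : ℤ[X]) (a e : ℝ) (m : ℕ) :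
    ∑ i ∈ range (P.natDegree + 1), (P.coeff i : ℝ) * (a + e * (-1) ^ (m + i)) =
      a * ((P.eval 1 : ℤ) : ℝ) + e * (-1) ^ m * ((P.eval (-1) : ℤ) : ℝ) := by
  rw [eval_eq_sum_range, eval_eq_sum_range]
  push_cast
  rw [mul_sum, mul_sum, ← sum_add_distrib]
  apply sum_congr rfl
  intro i _
  rw [pow_add]
  ring

/-- **The family.** For `n ≥ 4` and `γ > 1` with `γ^n (1 + γ - γ²) = 1` there is `t > 0` for which
all the `⌊t γ^m⌋` are even. -/
theorem family {n : ℕ} (hn : 4 ≤ n) {g : ℝ} (hg : 1 < g) (h : g ^ n * (1 + g - g ^ 2) = 1) :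
    ∃ t : ℝ, 0 < t ∧ ∀ m : ℕ, Even ⌊t * g ^ m⌋₊ := by
  have hgeo := geom_of_F hg h
  have hFd := FF_deriv hg h
  have hF0 := FF_aeval h
  rcases Nat.even_or_odd' n with ⟨k, rfl | rfl⟩
  · -- even case
    have hroot : aeval g (PP ℤ (2 * k)) = 0 := by
      simp [PP]
      linarith
    have hd : aeval g (derivative (PP ℤ (2 * k))) ≠ 0 := by
      intro h0
      apply hFd
      rw [← PP_mul, derivative_mul, map_add, map_mul, map_mul, h0, hroot]
      simp
    have hP1 : (PP ℤ (2 * k)).eval 1 ≤ -3 := by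
      rw [PP_eval]
      simp
      have : (4 : ℤ) ≤ 2 * (k : ℤ) := by exact_mod_cast hn
      linarith
    refine exists_even (PP_monic _) hP1 hg hroot hd (fun z hz hzg => ?_)
    have hzF : aeval z (FF (2 * k)) = 0 := by rw [← PP_mul, map_mul, hz, mul_zero]
    have hz1 : z ≠ 1 := by
      rintro rfl
      have : aeval (1 : ℂ) (PP ℤ (2 * k)) = (((PP ℤ (2 * k)).eval 1 : ℤ) : ℂ) := by
        simp [PP, eval_finsetSum]
      rw [this] at hz
      have h2 : (PP ℤ (2 * k)).eval 1 = 0 := by exact_mod_cast hz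
      omega
    have hzn : z ≠ -1 := by
      rintro rfl
      simp [FF] at hzF
    exact root_lt_one hg hgeo (root_of_F hzF hz1) hzg hzn
  · -- odd case
    have hk : 2 ≤ k := by omega
    have hg2 : g ^ 2 - 1 ≠ 0 := by nlinarith
    have hroot : aeval g (P2 k) = 0 := by
      have h2 := hF0
      rw [← P2_mul, map_mul] at h2
      rcases mul_eq_zero.1 h2 with h3 | h3
      · simp at h3
        exact absurd h3 hg2
      · exact h3
    have hd : aeval g (derivative (P2 k)) ≠ 0 := by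
      intro h0
      apply hFd
      rw [← P2_mul, derivative_mul, map_add, map_mul, map_mul, h0, hroot]
      simp
    have hP1 : (P2 k).eval 1 = -(k : ℤ) := by
      simp [P2, eval_finsetSum]
    have hPn : (P2 k).eval (-1) = -((k : ℤ) + 2) := by
      have e : ∑ i ∈ range (k + 1), ((-1 : ℤ) ^ (2 * i)) = k + 1 := by
        simp [pow_mul]
      simp only [P2, eval_sub, eval_pow, eval_X, eval_finsetSum]
      rw [e, pow_succ, pow_mul]
      simp
      ring
    have hk0 : (0 : ℝ) < k := by exact_mod_cast (by omega : 0 < k)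
    have hk2 : (2 : ℝ) ≤ k := by exact_mod_cast hk
    set a : ℝ := 1 / (2 * k) with ha
    set e : ℝ := 1 / (2 * (k + 2)) with he
    have hae : e < a := by
      rw [ha, he]
      apply one_div_lt_one_div_of_lt <;> linarith
    have ha4 : a ≤ 1 / 4 := by
      rw [ha, div_le_div_iff₀ (by positivity) (by norm_num)]; linarith
    have he8 : e ≤ 1 / 8 := by
      rw [he, div_le_div_iff₀ (by positivity) (by norm_num)]; linarith
    have he0 : 0 < e := by rw [he]; positivity
    have hak : a * k = 1 / 2 := by rw [ha]; field_simp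
    have hek : e * (k + 2) = 1 / 2 := by rw [he]; field_simp
    have hsgn : ∀ m : ℕ, ((-1 : ℝ)) ^ m = 1 ∨ ((-1 : ℝ)) ^ m = -1 := neg_one_pow_eq_or ℝ
    refine exists_even_pattern (P2_monic k) hg hroot hd (fun z hz hzg => ?_)
      (fun m => a + e * (-1) ^ m) (δ := min (a - e) (1 / 8)) (by
        apply lt_min <;> linarith) (fun m => ?_) (fun m => ?_) (fun m => ?_)
    · have hzF : aeval z (FF (2 * k + 1)) = 0 := by rw [← P2_mul, map_mul, hz, mul_zero]
      have hz1 : z ≠ 1 := by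
        rintro rfl
        have : aeval (1 : ℂ) (P2 k) = (((P2 k).eval 1 : ℤ) : ℂ) := by
          simp [P2, eval_finsetSum]
        rw [this, hP1] at hz
        have h2 : -(k : ℤ) = 0 := by exact_mod_cast hz
        omega
      have hzn : z ≠ -1 := by
        rintro rfl
        have : aeval (-1 : ℂ) (P2 k) = (((P2 k).eval (-1) : ℤ) : ℂ) := by
          simp [P2, eval_finsetSum]
        rw [this, hPn] at hz
        have h2 : -((k : ℤ) + 2) = 0 := by exact_mod_cast hz
        omega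
      exact root_lt_one hg hgeo (root_of_F hzF hz1) hzg hzn
    · refine (min_le_left _ _).trans ?_
      rcases hsgn m with h1 | h1 <;> simp only [h1] <;> linarith
    · have := min_le_right (a - e) (1 / 8)
      rcases hsgn m with h1 | h1 <;> simp only [h1] <;> linarith
    · rw [sum_pattern, hP1, hPn]
      rcases hsgn m with h1 | h1
      · refine ⟨-1, ?_⟩
        rw [h1]
        push_cast
        linarith
      · refine ⟨0, ?_⟩
        rw [h1]
        push_cast
        linarith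

/-- the family has a member in `(3/2, (1+√5)/2)` for every `n ≥ 4` -/
theorem family_exists {n : ℕ} (hn : 4 ≤ n) :
    ∃ g : ℝ, 3 / 2 < g ∧ g ^ 2 < g + 1 ∧ g ^ n * (1 + g - g ^ 2) = 1 := by
  have hcont : Continuous (fun x : ℝ => x ^ n * (1 + x - x ^ 2)) := by fun_prop
  set φ : ℝ := Real.goldenRatio with hφ
  have hφ2 : φ ^ 2 = φ + 1 := Real.goldenRatio_sq
  have hφ1 : (3 : ℝ) / 2 < φ := by
    by_contra hh
    push Not at hh
    have h0 : 0 < φ := Real.goldenRatio_pos
    nlinarith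
  have hiv := intermediate_value_Ioo' hφ1.le (hcont.continuousOn (s := Set.Icc (3 / 2) φ))
  have hmem : (1 : ℝ) ∈ Set.Ioo (φ ^ n * (1 + φ - φ ^ 2)) ((3 / 2) ^ n * (1 + 3 / 2 - (3 / 2) ^ 2)) := by
    constructor
    · rw [hφ2]
      have : φ ^ n * (1 + φ - (φ + 1)) = 0 := by ring
      rw [this]; norm_num
    · have h1 : ((3 : ℝ) / 2) ^ 4 ≤ (3 / 2) ^ n := pow_le_pow_right₀ (by norm_num) hn
      norm_num at h1 ⊢
      linarith
  obtain ⟨g, hg, hgv⟩ := hiv hmem
  simp only at hgv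
  refine ⟨g, hg.1, ?_, hgv⟩
  by_contra hh
  push Not at hh
  have hp : 0 < g ^ n := by
    have := hg.1
    positivity
  have := mul_nonpos_of_nonneg_of_nonpos hp.le (show 1 + g - g ^ 2 ≤ 0 by linarith)
  linarith

/-- a real root in `(1,2)` of a monic integer polynomial is irrational -/
theorem irrational_of_root {P : ℤ[X]} (hP : P.Monic) {g : ℝ} (hg1 : 1 < g) (hg2 : g < 2)
    (h : aeval g P = 0) : Irrational g := by
  rintro ⟨q, rfl⟩
  have h1 : aeval q P = 0 := by
    have h2 : aeval ((q : ℚ) : ℝ) P = ((aeval q P : ℚ) : ℝ) := by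
      have := aeval_algebraMap_apply ℝ q P
      simpa using this
    rw [h2] at h
    exact_mod_cast h
  obtain ⟨z, hz⟩ := isInteger_of_is_root_of_monic hP h1
  have h3 : ((z : ℤ) : ℚ) = q := by simpa using hz
  rw [← h3] at hg1 hg2
  push_cast at hg1 hg2
  have h4 : (1 : ℤ) < z := by exact_mod_cast hg1
  have h5 : z < 2 := by exact_mod_cast hg2
  omega

theorem lt_two_of_F {n : ℕ} {g : ℝ} (hg : 1 < g) (h : g ^ n * (1 + g - g ^ 2) = 1) : g < 2 := by
  by_contra hh
  push Not at hh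
  have hp : 0 < g ^ n := by positivity
  have := mul_nonpos_of_nonneg_of_nonpos hp.le (show 1 + g - g ^ 2 ≤ 0 by nlinarith)
  linarith

theorem irrational_of_F {n : ℕ} {g : ℝ} (hg : 1 < g) (h : g ^ n * (1 + g - g ^ 2) = 1) :
    Irrational g := by
  refine irrational_of_root (PP_monic n) hg (lt_two_of_F hg h) ?_
  have := geom_of_F hg h
  simp [PP]
  linarith

/-- trinomial ratios are below `√2` except for `(k, j) = (2, 1), (3, 2)` -/
theorem sq_lt_two {g : ℝ} (hg : 1 < g) {k j : ℕ} (hj : 1 ≤ j) (hjk : j < k)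
    (hkj : 4 ≤ k ∨ (k = 3 ∧ j = 1)) (h : g ^ k = g ^ j + 1) : g ^ 2 < 2 := by
  by_contra hh
  push Not at hh
  rcases hkj with hk | ⟨rfl, rfl⟩
  · obtain ⟨m, rfl⟩ : ∃ m, k = m + 1 := ⟨k - 1, by omega⟩
    have h1 : g ^ j ≤ g ^ m := pow_le_pow_right₀ hg.le (by omega)
    have h2 : g ^ 3 ≤ g ^ m := pow_le_pow_right₀ hg.le (by omega)
    have h3 : g ^ (m + 1) - g ^ j ≥ g ^ m * (g - 1) := by rw [pow_succ]; linarith
    have h4 : g ^ m * (g - 1) ≥ g ^ 3 * (g - 1) :=
      mul_le_mul_of_nonneg_right h2 (by linarith)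
    have h5 : g ^ 3 * (g - 1) ≤ 1 := by linarith
    have h6 : g ^ 3 ≥ 2 * g := by nlinarith
    have h7 : 2 * g * (g - 1) ≤ 1 :=
      (mul_le_mul_of_nonneg_right h6 (by linarith)).trans h5
    nlinarith
  · nlinarith

end Pool.Agent.Y943.Fl
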