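import Mathlib

set_option autoImplicit false

/-! Completeness of `⌊t γ^n⌋` for trinomial ratios `γ^k = γ^j + 1`, `γ² < 2` (helper943). -/

namespace Pool.Agent.Y943.Fl

open Finset

/-- integrality for all large indices is impossible for a ratio in `(1,2)` -/
theorem not_eventually_int {t g : ℝ} (ht : 0 < t) (h1 : 1 < g) (h2 : g < 2) (N : ℕ)
    (h : ∀ n ≥ N, ∃ z : ℤ, t * g ^ n = z) : False := by
  have key : ∀ s : ℕ, ∀ n ≥ N, ∃ z : ℤ, (g - 1) ^ s * (t * g ^ n) = z := by
    intro s
    induction s with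
    | zero => intro n hn; simpa using h n hn
    | succ s ih =>
      intro n hn
      obtain ⟨z1, hz1⟩ := ih n hn
      obtain ⟨z2, hz2⟩ := ih (n + 1) (by omega)
      refine ⟨z2 - z1, ?_⟩
      push_cast
      rw [← hz1, ← hz2]
      ring
  have hlt : g - 1 < 1 := by linarith
  have hpos : 0 < t * g ^ N := by positivity
  obtain ⟨s, hs⟩ := exists_pow_lt_of_lt_one (show (0 : ℝ) < 1 / (t * g ^ N) by positivity) hlt
  obtain ⟨z, hz⟩ := key s N le_rfl
  have hp : 0 < (g - 1) ^ s * (t * g ^ N) := by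
    have : 0 < g - 1 := by linarith
    positivity
  have hl : (g - 1) ^ s * (t * g ^ N) < 1 := by
    rwa [lt_div_iff₀ hpos] at hs
  rw [hz] at hp hl
  have a1 : (0 : ℤ) < z := by exact_mod_cast hp
  have a2 : z < 1 := by exact_mod_cast hl
  omega

/-- a nonnegative bounded solution of `f (n+k) = f (n+j) + f n` vanishes eventually -/
theorem bounded_zero {f : ℕ → ℝ} {k j N : ℕ} (hjk : j < k)
    (h0 : ∀ n, 0 ≤ f n) (hb : ∀ n, f n < 1)
    (hrec : ∀ n ≥ N, f (n + k) = f (n + j) + f n) : ∀ n ≥ N + j, f n = 0 := by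
  have s1 : ∀ n ≥ N, f n ≤ f (n + k) := fun n hn => by
    rw [hrec n hn]; linarith [h0 (n + j)]
  have s2 : ∀ n ≥ N + j, f n ≤ f (n + (k - j)) := fun n hn => by
    have e := hrec (n - j) (by omega)
    have e1 : n - j + k = n + (k - j) := by omega
    have e2 : n - j + j = n := by omega
    rw [e1, e2] at e
    linarith [h0 (n - j)]
  have s3 : ∀ s : ℕ, ∀ n ≥ N + j, f n ≤ f (n + s * (k - j)) := by
    intro s
    induction s with
    | zero => intro n _; simp
    | succ s ih =>
      intro n hn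
      refine (ih n hn).trans ?_
      have := s2 (n + s * (k - j)) (by omega)
      have e : n + (s + 1) * (k - j) = n + s * (k - j) + (k - j) := by ring
      rwa [e]
  have s4 : ∀ n ≥ N + j, 2 * f n ≤ f (n + k * (k - j) + k) := by
    intro n hn
    rw [hrec (n + k * (k - j)) (by omega)]
    have h1 := s3 k n hn
    have h2 : f n ≤ f (n + k * (k - j) + j) := by
      have e : n + k * (k - j) + j = n + k + (k - 1) * (k - j) := by
        obtain ⟨k', rfl⟩ : ∃ k', k = k' + 1 := ⟨k - 1, by omega⟩
        have : (k' + 1) * (k' + 1 - j) = k' * (k' + 1 - j) + (k' + 1 - j) := by ring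
        rw [this]
        have e3 : k' + 1 - 1 = k' := rfl
        rw [e3]
        omega
      rw [e]
      exact (s1 n (by omega)).trans (s3 (k - 1) (n + k) (by omega))
    linarith
  have s5 : ∀ s : ℕ, ∀ n ≥ N + j, 2 ^ s * f n ≤ f (n + s * (k * (k - j) + k)) := by
    intro s
    induction s with
    | zero => intro n _; simp
    | succ s ih =>
      intro n hn
      have h1 := ih n hn
      have h2 := s4 (n + s * (k * (k - j) + k)) (by omega)
      have e : n + (s + 1) * (k * (k - j) + k) = n + s * (k * (k - j) + k) + k * (k - j) + k := by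
        ring
      rw [e, pow_succ]
      linarith
  intro n hn
  by_contra hne
  have hpos : 0 < f n := lt_of_le_of_ne (h0 n) (Ne.symm hne)
  obtain ⟨s, hs⟩ := pow_unbounded_of_one_lt (1 / f n) (one_lt_two : (1 : ℝ) < 2)
  rw [div_lt_iff₀ hpos] at hs
  linarith [s5 s n hn, hb (n + s * (k * (k - j) + k))]

/-- infinitely many unit differences -/
theorem exists_unit {t g : ℝ} (ht : 0 < t) (h1 : 1 < g) (h2 : g < 2) {k j : ℕ}
    (hjk : j < k) (hg : g ^ k = g ^ j + 1) (N : ℕ) :
    ∃ n ≥ N, ⌊t * g ^ (n + k)⌋₊ = ⌊t * g ^ (n + j)⌋₊ + ⌊t * g ^ n⌋₊ + 1 := by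
  by_contra hcon
  push Not at hcon
  have hx : ∀ n, 0 ≤ t * g ^ n := fun n => by positivity
  have hrel : ∀ n, t * g ^ (n + k) = t * g ^ (n + j) + t * g ^ n := fun n => by
    rw [pow_add, pow_add, hg]; ring
  have hfl : ∀ n ≥ N, ⌊t * g ^ (n + k)⌋₊ = ⌊t * g ^ (n + j)⌋₊ + ⌊t * g ^ n⌋₊ := by
    intro n hn
    have l1 := Nat.floor_le (hx n)
    have l2 := Nat.lt_floor_add_one (t * g ^ n)
    have l3 := Nat.floor_le (hx (n + j))
    have l4 := Nat.lt_floor_add_one (t * g ^ (n + j))
    have a1 : ⌊t * g ^ (n + j)⌋₊ + ⌊t * g ^ n⌋₊ ≤ ⌊t * g ^ (n + k)⌋₊ := by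
      apply Nat.le_floor
      push_cast
      rw [hrel]
      linarith
    have a2 : ⌊t * g ^ (n + k)⌋₊ < ⌊t * g ^ (n + j)⌋₊ + ⌊t * g ^ n⌋₊ + 2 := by
      rw [Nat.floor_lt (hx _)]
      push_cast
      rw [hrel]
      linarith
    have := hcon n hn
    omega
  have hz := bounded_zero (f := fun n => t * g ^ n - (⌊t * g ^ n⌋₊ : ℝ)) (N := N) hjk
    (fun n => by have := Nat.floor_le (hx n); simpa using this)
    (fun n => by have := Nat.lt_floor_add_one (t * g ^ n); linarith)
    (fun n hn => by
      have e1 : ((⌊t * g ^ (n + k)⌋₊ : ℕ) : ℝ) = (⌊t * g ^ (n + j)⌋₊ : ℝ) + (⌊t * g ^ n⌋₊ : ℝ) := by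
        rw [hfl n hn]; push_cast; ring
      rw [e1, hrel]
      ring)
  refine not_eventually_int ht h1 h2 (N + j) (fun n hn => ⟨(⌊t * g ^ n⌋₊ : ℤ), ?_⟩)
  have := hz n hn
  push_cast
  linarith

/-- the step of the construction of unit differences -/
structure Sys (a : ℕ → ℕ) (x : ℕ → ℝ) (c : ℝ) (n₀ J : ℕ) (T : Finset ℕ) (b : ℕ) : Prop where
  ge : ∀ i ∈ T, n₀ ≤ i
  val : ∀ r ≤ J, ∃ F ⊆ T, ∑ i ∈ F, a i = b + r
  few : ∀ m, m ∉ T → ∑ i ∈ T.filter (· < m), x i ≤ c * x m

theorem exists_sys {t g : ℝ} (ht : 0 < t) (h1 : 1 < g) (h2 : g < 2) {k j : ℕ}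
    (hj : 1 ≤ j) (hjk : j < k) (hg : g ^ k = g ^ j + 1) (n₀ : ℕ) {η : ℝ} (hη : 0 < η) (J : ℕ) :
    ∃ T b, Sys (fun n => ⌊t * g ^ n⌋₊) (fun n => t * g ^ n) (2 / g + η) n₀ J T b := by
  have hg0 : 0 < g := by linarith
  induction J with
  | zero =>
    refine ⟨∅, 0, ?_, ?_, ?_⟩
    · intro i hi; simp at hi
    · intro r hr
      exact ⟨∅, by simp, by simp; omega⟩
    · intro m _
      simp only [filter_empty, sum_empty]
      positivity
  | succ J ih =>
    obtain ⟨T, b, hT1, hT2, hT3⟩ := ih
    set S : ℝ := ∑ i ∈ T, t * g ^ i with hS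
    have hS0 : 0 ≤ S := by
      rw [hS]
      exact sum_nonneg (fun i _ => by positivity)
    -- a large index
    obtain ⟨M, hM⟩ := pow_unbounded_of_one_lt (S / (η * t)) h1
    obtain ⟨M', hM'⟩ : ∃ M', ∀ i ∈ T, i < M' := ⟨T.sup id + 1, fun i hi =>
      Nat.lt_succ_of_le (Finset.le_sup (f := id) hi)⟩
    obtain ⟨n, hn, hun⟩ := exists_unit ht h1 h2 hjk hg (max n₀ (max M M'))
    have hn1 : n₀ ≤ n := le_trans (le_max_left _ _) hn
    have hn2 : M ≤ n := le_trans ((le_max_left _ _).trans (le_max_right _ _)) hn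
    have hn3 : M' ≤ n := le_trans ((le_max_right _ _).trans (le_max_right _ _)) hn
    have hlt : ∀ i ∈ T, i < n := fun i hi => (hM' i hi).trans_le hn3
    have hSn : S ≤ η * (t * g ^ n) := by
      have h3 : g ^ M ≤ g ^ n := pow_le_pow_right₀ h1.le hn2
      rw [div_lt_iff₀ (by positivity)] at hM
      have h4 : g ^ M * (η * t) ≤ g ^ n * (η * t) := by gcongr
      linarith
    have hnT : n ∉ T := fun h => lt_irrefl _ (hlt n h)
    have hnjT : n + j ∉ T := fun h => by have := hlt _ h; omega
    have hnkT : n + k ∉ T := fun h => by have := hlt _ h; omega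
    refine ⟨T ∪ {n, n + j, n + k}, b + ⌊t * g ^ n⌋₊ + ⌊t * g ^ (n + j)⌋₊, ?_, ?_, ?_⟩
    · intro i hi
      rw [mem_union] at hi
      rcases hi with hi | hi
      · exact hT1 i hi
      · simp only [mem_insert, mem_singleton] at hi
        rcases hi with rfl | rfl | rfl <;> omega
    · intro r hr
      rcases Nat.lt_or_ge r (J + 1) with hr' | hr'
      · obtain ⟨F, hF, hFs⟩ := hT2 r (by omega)
        refine ⟨F ∪ {n, n + j}, ?_, ?_⟩
        · intro i hi
          simp only [mem_union, mem_insert, mem_singleton] at hi ⊢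
          rcases hi with hi | hi | hi
          · exact Or.inl (hF hi)
          · exact Or.inr (Or.inl hi)
          · exact Or.inr (Or.inr (Or.inl hi))
        · rw [sum_union, hFs, sum_pair (by omega)]
          · ring
          · rw [disjoint_right]
            intro i hi hiF
            simp only [mem_insert, mem_singleton] at hi
            rcases hi with rfl | rfl
            · exact hnT (hF hiF)
            · exact hnjT (hF hiF)
      · have hr2 : r = J + 1 := by omega
        obtain ⟨F, hF, hFs⟩ := hT2 J le_rfl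
        refine ⟨F ∪ {n + k}, ?_, ?_⟩
        · intro i hi
          simp only [mem_union, mem_insert, mem_singleton] at hi ⊢
          rcases hi with hi | hi
          · exact Or.inl (hF hi)
          · exact Or.inr (Or.inr (Or.inr hi))
        · rw [sum_union, hFs, sum_singleton]
          · rw [hun, hr2]
            ring
          · rw [disjoint_right]
            intro i hi hiF
            simp only [mem_singleton] at hi
            subst hi
            exact hnkT (hF hiF)
    · intro m hm
      simp only [mem_union, mem_insert, mem_singleton, not_or] at hm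
      obtain ⟨hmT, hmn, hmnj, hmnk⟩ := hm
      rcases lt_or_gt_of_ne hmn with hlt' | hgt
      · have e : (T ∪ {n, n + j, n + k}).filter (· < m) = T.filter (· < m) := by
          ext i
          simp only [mem_filter, mem_union, mem_insert, mem_singleton]
          constructor
          · rintro ⟨h | h | h | h, h'⟩
            · exact ⟨h, h'⟩
            all_goals omega
          · rintro ⟨h, h'⟩
            exact ⟨Or.inl h, h'⟩
        rw [e]
        exact hT3 m hmT
      · -- m > n
        have e : (T ∪ {n, n + j, n + k}).filter (· < m) ⊆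
            T ∪ ({n, n + j, n + k} : Finset ℕ).filter (· < m) := by
          intro i
          simp only [mem_filter, mem_union, mem_insert, mem_singleton]
          tauto
        have h3 : ∑ i ∈ (T ∪ {n, n + j, n + k}).filter (· < m), t * g ^ i ≤
            S + ∑ i ∈ ({n, n + j, n + k} : Finset ℕ).filter (· < m), t * g ^ i := by
          refine (sum_le_sum_of_subset_of_nonneg e (fun i _ _ => by positivity)).trans ?_
          rw [sum_union]
          rw [disjoint_right]
          intro i hi hiT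
          simp only [mem_filter, mem_insert, mem_singleton] at hi
          rcases hi.1 with rfl | rfl | rfl
          · exact hnT hiT
          · exact hnjT hiT
          · exact hnkT hiT
        have h4 : ∑ i ∈ ({n, n + j, n + k} : Finset ℕ).filter (· < m), t * g ^ i ≤
            2 / g * (t * g ^ m) := by
          have gle : ∀ i < m, t * g ^ i ≤ t * g ^ m / g := by
            intro i hi
            rw [le_div_iff₀ hg0]
            have : g ^ (i + 1) ≤ g ^ m := pow_le_pow_right₀ h1.le (by omega)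
            have h5 : t * g ^ i * g = t * g ^ (i + 1) := by ring
            rw [h5]
            gcongr
          have e2 : 2 / g * (t * g ^ m) = 2 * (t * g ^ m / g) := by ring
          rw [e2]
          rcases Nat.lt_or_ge (n + k) m with hk' | hk'
          · have e3 : ({n, n + j, n + k} : Finset ℕ).filter (· < m) = {n, n + j, n + k} := by
              rw [filter_true_of_mem]
              intro i hi
              simp only [mem_insert, mem_singleton] at hi
              omega
            rw [e3, sum_insert (by simp; omega), sum_pair (by omega)]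
            have h6 : t * g ^ (n + k) = t * g ^ (n + j) + t * g ^ n := by
              rw [pow_add, pow_add, hg]; ring
            have h7 := gle _ hk'
            linarith
          · have e3 : ({n, n + j, n + k} : Finset ℕ).filter (· < m) ⊆ {n, n + j} := by
              intro i hi
              simp only [mem_filter, mem_insert, mem_singleton] at hi ⊢
              omega
            rcases Nat.lt_or_ge (n + j) m with hj' | hj'
            · refine (sum_le_sum_of_subset_of_nonneg e3 (fun i _ _ => by positivity)).trans ?_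
              rw [sum_pair (by omega)]
              linarith [gle _ hj', gle _ hgt]
            · have e4 : ({n, n + j, n + k} : Finset ℕ).filter (· < m) ⊆ {n} := by
                intro i hi
                simp only [mem_filter, mem_insert, mem_singleton] at hi ⊢
                omega
              refine (sum_le_sum_of_subset_of_nonneg e4 (fun i _ _ => by positivity)).trans ?_
              rw [sum_singleton]
              have : 0 ≤ t * g ^ m / g := by positivity
              linarith [gle _ hgt]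
        have h5 : S ≤ η * (t * g ^ m) := by
          refine hSn.trans ?_
          have : g ^ n ≤ g ^ m := pow_le_pow_right₀ h1.le hgt.le
          gcongr
        rw [add_mul]
        linarith

/-- greedy: a chain has bounded gaps -/
theorem greedy {a : ℕ → ℕ} {n₀ L : ℕ} {T : Finset ℕ}
    (hch : ∀ m ≥ n₀, m ∉ T → a m ≤ L + ∑ i ∈ (Ico n₀ m).filter (· ∉ T), a i) (m : ℕ) (hm : n₀ ≤ m) :
    ∀ y : ℕ, y ≤ L + ∑ i ∈ (Ico n₀ m).filter (· ∉ T), a i →
      ∃ F ⊆ (Ico n₀ m).filter (· ∉ T), ∑ i ∈ F, a i ≤ y ∧ y ≤ L + ∑ i ∈ F, a i := by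
  induction m, hm using Nat.le_induction with
  | base =>
    intro y hy
    simp only [Ico_self, filter_empty, sum_empty, add_zero] at hy
    exact ⟨∅, by simp, by simp, by simpa using hy⟩
  | succ m hm ih =>
    intro y hy
    by_cases hmT : m ∈ T
    · have e : (Ico n₀ (m + 1)).filter (· ∉ T) = (Ico n₀ m).filter (· ∉ T) := by
        ext i
        simp only [mem_filter, mem_Ico]
        constructor
        · rintro ⟨⟨h1, h2⟩, h3⟩
          refine ⟨⟨h1, ?_⟩, h3⟩
          rcases Nat.lt_or_ge i m with h | h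
          · exact h
          · exact absurd (by rwa [show i = m by omega]) h3
        · rintro ⟨⟨h1, h2⟩, h3⟩
          exact ⟨⟨h1, by omega⟩, h3⟩
      rw [e] at hy ⊢
      exact ih y hy
    · have hmem : m ∉ (Ico n₀ m).filter (· ∉ T) := by simp
      have e : (Ico n₀ (m + 1)).filter (· ∉ T) = insert m ((Ico n₀ m).filter (· ∉ T)) := by
        ext i
        simp only [mem_filter, mem_Ico, mem_insert]
        constructor
        · rintro ⟨⟨h1, h2⟩, h3⟩
          rcases Nat.lt_or_ge i m with h | h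
          · exact Or.inr ⟨⟨h1, h⟩, h3⟩
          · exact Or.inl (by omega)
        · rintro (rfl | ⟨⟨h1, h2⟩, h3⟩)
          · exact ⟨⟨hm, by omega⟩, hmT⟩
          · exact ⟨⟨h1, by omega⟩, h3⟩
      rw [e, sum_insert hmem] at hy
      rcases Nat.lt_or_ge (L + ∑ i ∈ (Ico n₀ m).filter (· ∉ T), a i) y with h | h
      · have h1 := hch m hm hmT
        obtain ⟨F, hF, h2, h3⟩ := ih (y - a m) (by omega)
        have hmF : m ∉ F := fun hh => hmem (hF hh)
        refine ⟨insert m F, ?_, ?_, ?_⟩
        · rw [e]; exact insert_subset_insert _ hF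
        · rw [sum_insert hmF]; omega
        · rw [sum_insert hmF]; omega
      · obtain ⟨F, hF, h2, h3⟩ := ih y h
        exact ⟨F, hF.trans (by rw [e]; exact subset_insert _ _), h2, h3⟩

/-- a linear function is at most a small multiple of an exponential plus a constant -/
theorem lin_le_exp {c g : ℝ} (hc : 0 < c) (h1 : 1 < g) : ∃ C : ℝ, 0 ≤ C ∧
    ∀ m : ℕ, (m : ℝ) ≤ c * g ^ m + C := by
  have ht := tendsto_pow_const_div_const_pow_of_one_lt 1 h1
  have he := ht.eventually (gt_mem_nhds hc)
  obtain ⟨M, hM⟩ := Filter.eventually_atTop.1 he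
  refine ⟨M, by positivity, fun m => ?_⟩
  have hp : 0 < g ^ m := by positivity
  rcases Nat.lt_or_ge m M with h | h
  · have : (m : ℝ) ≤ M := by exact_mod_cast h.le
    have : 0 < c * g ^ m := by positivity
    linarith
  · have h2 := hM m h
    rw [pow_one, div_lt_iff₀ hp] at h2
    have : (0 : ℝ) ≤ M := by positivity
    linarith

/-- The sequence `⌊t g^n⌋` is complete, for every `t > 0` and every ratio `1 < g < √2` with
`g^k = g^j + 1`. -/
theorem complete_trinomial {t g : ℝ} (ht : 0 < t) (h1 : 1 < g) (h2 : g ^ 2 < 2) {k j : ℕ}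
    (hj : 1 ≤ j) (hjk : j < k) (hg : g ^ k = g ^ j + 1) :
    ∃ N₀ : ℕ, ∀ N ≥ N₀, ∃ s : Finset ℕ,
      (∀ v ∈ s, 0 < v ∧ ∃ n : ℕ, v = ⌊t * g ^ n⌋₊) ∧ ∑ v ∈ s, v = N := by
  have hg0 : 0 < g := by linarith
  have hg2 : g < 2 := by nlinarith
  have hgm : 0 < g - 1 := by linarith
  -- the slack
  set δ : ℝ := (2 - g) / (g - 1) - 2 / g with hδ
  have hδ0 : 0 < δ := by
    rw [hδ, sub_pos, div_lt_div_iff₀ hg0 hgm]
    nlinarith
  set η : ℝ := δ / 2 with hη
  have hη0 : 0 < η := by positivity
  -- the start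
  obtain ⟨n₀, hn₀⟩ := pow_unbounded_of_one_lt (1 / (t * (g - 1))) h1
  have hstart : ∀ n ≥ n₀, t * g ^ n + 1 ≤ t * g ^ (n + 1) := by
    intro n hn
    have h3 : g ^ n₀ ≤ g ^ n := pow_le_pow_right₀ h1.le hn
    rw [div_lt_iff₀ (by positivity)] at hn₀
    have h4 : g ^ n₀ * (t * (g - 1)) ≤ g ^ n * (t * (g - 1)) := by gcongr
    have h5 : t * g ^ (n + 1) - t * g ^ n = g ^ n * (t * (g - 1)) := by ring
    linarith
  have hstep : ∀ n ≥ n₀, ⌊t * g ^ n⌋₊ < ⌊t * g ^ (n + 1)⌋₊ := by
    intro n hn
    have hp : 0 ≤ t * g ^ n := by positivity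
    have := Nat.floor_mono (hstart n hn)
    rw [Nat.floor_add_one hp] at this
    omega
  have hstrict : ∀ m, ∀ n ≥ n₀, n < m → ⌊t * g ^ n⌋₊ < ⌊t * g ^ m⌋₊ := by
    intro m n hn hnm
    induction m, hnm using Nat.le_induction with
    | base => exact hstep n hn
    | succ m hm ih => exact ih.trans (hstep m (by omega))
  obtain ⟨C, hC0, hC⟩ := lin_le_exp (c := η * t) (g := g) (by positivity) h1
  obtain ⟨L, hL⟩ := exists_nat_ge (C + t * g ^ (n₀ + 1) / (g - 1))
  -- the system
  obtain ⟨T, b, hT1, hT2, hT3⟩ := exists_sys ht h1 hg2 hj hjk hg (n₀ + 1) hη0 L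
  -- geometric sum
  have hgeo : ∀ m ≥ n₀ + 1, ∑ i ∈ Ico (n₀ + 1) m, t * g ^ i =
      (t * g ^ m - t * g ^ (n₀ + 1)) / (g - 1) := by
    intro m hm
    rw [← mul_sum, geom_sum_Ico (by linarith) hm]
    ring
  have hchain : ∀ m ≥ n₀ + 1, m ∉ T →
      ⌊t * g ^ m⌋₊ ≤ L + ∑ i ∈ (Ico (n₀ + 1) m).filter (· ∉ T), ⌊t * g ^ i⌋₊ := by
    intro m hm hmT
    have hsplit : ∑ i ∈ Ico (n₀ + 1) m, t * g ^ i ≤
        ∑ i ∈ (Ico (n₀ + 1) m).filter (· ∉ T), t * g ^ i + ∑ i ∈ T.filter (· < m), t * g ^ i := by
      rw [← sum_filter_add_sum_filter_not (Ico (n₀ + 1) m) (· ∉ T)]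
      gcongr
      · intro i hi
        simp only [not_not, mem_filter, mem_Ico] at hi ⊢
        exact ⟨hi.2, hi.1.2⟩
    have hfloor : ∑ i ∈ (Ico (n₀ + 1) m).filter (· ∉ T), t * g ^ i ≤
        (∑ i ∈ (Ico (n₀ + 1) m).filter (· ∉ T), (⌊t * g ^ i⌋₊ : ℝ)) + m := by
      calc ∑ i ∈ (Ico (n₀ + 1) m).filter (· ∉ T), t * g ^ i
          ≤ ∑ i ∈ (Ico (n₀ + 1) m).filter (· ∉ T), ((⌊t * g ^ i⌋₊ : ℝ) + 1) :=
            sum_le_sum (fun i _ => (Nat.lt_floor_add_one _).le)
        _ = (∑ i ∈ (Ico (n₀ + 1) m).filter (· ∉ T), (⌊t * g ^ i⌋₊ : ℝ)) +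
            (((Ico (n₀ + 1) m).filter (· ∉ T)).card : ℝ) := by
            rw [sum_add_distrib]; simp
        _ ≤ _ := by
            gcongr
            refine (card_filter_le _ _).trans ?_
            simp
    have h3 := hT3 m hmT
    have h4 := hgeo m hm
    have h5 := hC m
    have h6 : (2 - g) / (g - 1) = 1 / (g - 1) - 1 := by
      field_simp
      ring
    have h7 : (t * g ^ m - t * g ^ (n₀ + 1)) / (g - 1) =
        t * g ^ m * (1 / (g - 1)) - t * g ^ (n₀ + 1) / (g - 1) := by ring
    have h8 : ((⌊t * g ^ m⌋₊ : ℕ) : ℝ) ≤ t * g ^ m := Nat.floor_le (by positivity)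
    have h9 : 1 / (g - 1) = 2 * η + 1 + 2 / g := by
      rw [hη, hδ, h6]; ring
    have h10 : (((⌊t * g ^ m⌋₊ : ℕ) : ℝ)) ≤
        ((L + ∑ i ∈ (Ico (n₀ + 1) m).filter (· ∉ T), ⌊t * g ^ i⌋₊ : ℕ) : ℝ) := by
      push_cast
      rw [h7, h9] at h4
      have h11 : t * g ^ m * (2 * η + 1 + 2 / g) =
        t * g ^ m + (2 / g + η) * (t * g ^ m) + η * t * g ^ m := by ring
      linarith
    exact_mod_cast h10
  refine ⟨b, fun N hN => ?_⟩
  -- a large unused index
  have hgrow : ∀ s : ℕ, s ≤ ⌊t * g ^ (n₀ + s)⌋₊ := by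
    intro s
    induction s with
    | zero => simp
    | succ s ih =>
      have := hstep (n₀ + s) (by omega)
      rw [← add_assoc]
      omega
  obtain ⟨m, hm1, hmT, hm2⟩ : ∃ m ≥ n₀ + 1, m ∉ T ∧ N - b ≤ ⌊t * g ^ m⌋₊ := by
    refine ⟨n₀ + (T.sup id + 1 + (N - b)), by omega, ?_, ?_⟩
    · intro h
      have := Finset.le_sup (f := id) h
      simp only [id] at this
      omega
    · have := hgrow (T.sup id + 1 + (N - b))
      omega
  obtain ⟨F, hF, hF1, hF2⟩ := greedy (a := fun n => ⌊t * g ^ n⌋₊) hchain m hm1 (N - b)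
    (hm2.trans (hchain m hm1 hmT))
  obtain ⟨R, hR, hRs⟩ := hT2 (N - b - ∑ i ∈ F, ⌊t * g ^ i⌋₊) (by omega)
  have hdisj : Disjoint F R := by
    rw [disjoint_left]
    intro i hi hiR
    have := hF hi
    rw [mem_filter] at this
    exact this.2 (hR hiR)
  have hge : ∀ i ∈ F ∪ R, n₀ + 1 ≤ i := by
    intro i hi
    rw [mem_union] at hi
    rcases hi with hi | hi
    · have := hF hi
      rw [mem_filter, mem_Ico] at this
      exact this.1.1
    · exact hT1 i (hR hi)
  refine ⟨(F ∪ R).image (fun n => ⌊t * g ^ n⌋₊), ?_, ?_⟩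
  · intro v hv
    rw [mem_image] at hv
    obtain ⟨i, hi, rfl⟩ := hv
    refine ⟨?_, i, rfl⟩
    have := hstrict i n₀ le_rfl (by have := hge i hi; omega)
    omega
  · rw [sum_image]
    · rw [sum_union hdisj, hRs]
      omega
    · intro i hi i' hi' he
      have a1 := hge i hi
      have a2 := hge i' hi'
      rcases lt_trichotomy i i' with h | h | h
      · have := hstrict i' i (by omega) h
        simp only at he
        omega
      · exact h
      · have := hstrict i i' (by omega) h
        simp only at he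
        omega

end Pool.Agent.Y943.Fl
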